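import Pool.Agent.LPV.Stmts

set_option autoImplicit false

noncomputable section

open MeasureTheory Filter Topology
open scoped RealInnerProductSpace

namespace Pool.Agent.LPV.H23

open Pool.Agent.LPK

theorem inner_pt {n : ℕ} {κ : ℝ} {b b' : Fin n → V n} (h : Du κ b b') (a : Fin n → ℤ)
    (j : Fin n) : ⟪pt b a, b' j⟫ = a j * (2 * Real.pi) := by
  unfold pt
  rw [sum_inner, Finset.sum_eq_single j]
  · rw [real_inner_smul_left, h.dual, if_pos rfl]
  · intro i _ hij
    rw [real_inner_smul_left, h.dual, if_neg hij, mul_zero]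
  · intro hj
    exact absurd (Finset.mem_univ j) hj

theorem pt_ne {n : ℕ} {κ : ℝ} {b b' : Fin n → V n} (h : Du κ b b') (a : Fin n → ℤ)
    (ha : a ≠ 0) : pt b a ≠ 0 := by
  intro h0
  apply ha
  funext j
  have h1 := inner_pt h a j
  rw [h0, inner_zero_left] at h1
  have h2 : (a j : ℝ) = 0 := by
    rcases mul_eq_zero.1 h1.symm with h3 | h3
    · exact h3
    · exact absurd h3 (by positivity)
  exact_mod_cast h2

theorem numeric (m : ℕ) (κ t μ δ : ℝ) (hκ : 0 < κ) (ht : 0 < t) (hδ : 0 < δ)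
    (hmu : 4 * t ^ 2 < μ) (h : t ^ (m + m) * δ = κ * (2 * Real.pi) ^ m) :
    1 / δ ≤ (μ / (8 * Real.pi)) ^ m / κ := by
  have hpi := Real.pi_pos
  have h1 : (1 : ℝ) / δ = (t ^ 2 / (2 * Real.pi)) ^ m / κ := by
    rw [div_pow, div_div, div_eq_div_iff hδ.ne' (by positivity), one_mul, ← pow_mul]
    have h2 : 2 * m = m + m := by ring
    rw [h2]
    linarith [h]
  rw [h1]
  have h3 : t ^ 2 / (2 * Real.pi) ≤ μ / (8 * Real.pi) := by
    rw [div_le_div_iff₀ (by positivity) (by positivity)]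
    nlinarith
  have h4 : (0 : ℝ) ≤ t ^ 2 / (2 * Real.pi) := by positivity
  gcongr

theorem upv (h1 : RnkStmt) (h2 : BasStmt) (h3 : SclStmt) (h4 : CtvStmt) : UpvStmt := by
  intro n κ D μ ν hC hν L hL
  by_cases hs : Submodule.span ℝ (L : Set (V n)) = ⊤
  · have hn : 1 ≤ n := by
      have := hC.one
      omega
    obtain ⟨c, hc, hdet, hlim⟩ := h2 n L hn hL hs
    refine hlim.trans ?_
    refine mul_le_mul_left (ENNReal.ofReal_le_ofReal ?_) _
    obtain ⟨t, b, b', ht, hDu, hpt, hvol⟩ := h3 n κ c hn hC.kap hdet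
    have hmu : 4 * t ^ 2 < μ := by
      by_contra hcon
      rw [not_lt] at hcon
      have hMu : Mu μ b := by
        intro a ha
        have hmem : pt c a ∈ (L : Set (V n)) := (hc _).2 ⟨a, rfl⟩
        have hne : pt c a ≠ 0 := by
          intro h0
          apply pt_ne hDu a ha
          rw [hpt a, h0, smul_zero]
        have hd : (2 : ℝ) ≤ dist (pt c a) 0 := hL hmem L.zero_mem hne
        rw [dist_zero_right] at hd
        rw [hpt a, norm_smul, mul_pow, Real.norm_eq_abs, sq_abs]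
        have h5 : (4 : ℝ) ≤ ‖pt c a‖ ^ 2 := by nlinarith
        nlinarith [sq_nonneg t]
      exact h4 n κ D μ ν hC b b' hDu hMu (hν b b' hDu hMu)
    obtain ⟨m, hm⟩ := hC.ev
    have hm2 : n / 2 = m := by omega
    have hm3 : ((n : ℝ) / 2) = (m : ℝ) := by
      rw [hm]
      push_cast
      ring
    rw [hm2]
    rw [hm3, Real.rpow_natCast] at hvol
    refine numeric m κ t μ _ hC.kap ht (abs_pos.2 hdet) hmu ?_
    rw [← hm]
    exact hvol
  · rw [h1 n L hL hs]
    exact bot_le

end Pool.Agent.LPV.H23
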